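import Pool.Agent.W682.BQ.Stm

/-! Project BQ (helper682): the triangular bumps are admissible. -/

set_option autoImplicit false

namespace Pool.Agent.W919.BQ.Tri

open MeasureTheory Set Filter Topology
open Pool.Agent.W488.IW Pool.Agent.W488.IX Pool.Agent.W682.BQ

/-- the derivative of a power of the positive part -/
theorem hasDeriv_pos (k : ℕ) (hk : 2 ≤ k) (u : ℝ) :
    HasDerivAt (fun t : ℝ => max t 0 ^ k) (k * max u 0 ^ (k - 1)) u := by
  rcases lt_trichotomy u 0 with h | h | h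
  · have h1 : (fun t : ℝ => max t 0 ^ k) =ᶠ[𝓝 u] fun _ => (0 : ℝ) := by
      filter_upwards [Iio_mem_nhds h] with t ht
      have : max t 0 = 0 := max_eq_right (le_of_lt ht)
      rw [this, zero_pow (by omega)]
    have h2 : max u 0 = 0 := max_eq_right h.le
    rw [h2, zero_pow (by omega), mul_zero]
    exact (hasDerivAt_const u (0 : ℝ)).congr_of_eventuallyEq h1
  · subst h
    have h2 : max (0 : ℝ) 0 = 0 := max_self 0
    rw [h2, zero_pow (by omega), mul_zero]
    rw [hasDerivAt_iff_isLittleO]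
    have h3 : (fun x' : ℝ => max x' 0 ^ k - max 0 0 ^ k - (x' - 0) • (0 : ℝ)) =O[𝓝 0]
        fun x' : ℝ => x' ^ k := by
      refine Asymptotics.IsBigO.of_bound 1 (Eventually.of_forall fun x => ?_)
      simp only [max_self, smul_zero, sub_zero, one_mul]
      rw [zero_pow (by omega), sub_zero, norm_pow, norm_pow]
      refine pow_le_pow_left₀ (norm_nonneg _) ?_ _
      rw [Real.norm_eq_abs, Real.norm_eq_abs, abs_of_nonneg (le_max_right _ _)]
      exact max_le (le_abs_self x) (abs_nonneg x)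
    refine h3.trans_isLittleO ?_
    have h4 : (fun x' : ℝ => x' ^ k) =o[𝓝 0] fun x' : ℝ => x' ^ 1 :=
      Asymptotics.isLittleO_pow_pow (by omega)
    simpa using h4
  · have h1 : (fun t : ℝ => max t 0 ^ k) =ᶠ[𝓝 u] fun t => t ^ k := by
      filter_upwards [Ioi_mem_nhds h] with t ht
      rw [max_eq_left (le_of_lt ht)]
    rw [max_eq_left h.le]
    exact (hasDerivAt_pow k u).congr_of_eventuallyEq h1

theorem hasDeriv_shift (k : ℕ) (hk : 2 ≤ k) (c u : ℝ) :
    HasDerivAt (fun t : ℝ => max (t - c) 0 ^ k) (k * max (u - c) 0 ^ (k - 1)) u := by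
  have h := (hasDeriv_pos k hk (u - c)).comp u ((hasDerivAt_id u).sub_const c)
  simpa [Function.comp_def] using h

/-- the tent as a combination of positive parts -/
noncomputable def f0 (N t : ℝ) : ℝ :=
  N ^ 2 * (max (t - (1 - 1 / N)) 0 - 2 * max (t - 1) 0 + max (t - (1 + 1 / N)) 0)
noncomputable def f1 (N t : ℝ) : ℝ :=
  N ^ 2 * (max (t - (1 - 1 / N)) 0 ^ 2 / 2 - max (t - 1) 0 ^ 2 + max (t - (1 + 1 / N)) 0 ^ 2 / 2)
noncomputable def f2 (N t : ℝ) : ℝ :=
  N ^ 2 * (max (t - (1 - 1 / N)) 0 ^ 3 / 6 - max (t - 1) 0 ^ 3 / 3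
    + max (t - (1 + 1 / N)) 0 ^ 3 / 6)

theorem d1 (N t : ℝ) : HasDerivAt (f1 N) (f0 N t) t := by
  have h := ((((hasDeriv_shift 2 le_rfl (1 - 1 / N) t).div_const 2).sub
    (hasDeriv_shift 2 le_rfl 1 t)).add
    ((hasDeriv_shift 2 le_rfl (1 + 1 / N) t).div_const 2)).const_mul (N ^ 2)
  have h' : HasDerivAt (f1 N) _ t := h
  refine h'.congr_deriv ?_
  unfold f0
  push_cast
  simp only [pow_one]
  ring

theorem d2 (N t : ℝ) : HasDerivAt (f2 N) (f1 N t) t := by
  have h := ((((hasDeriv_shift 3 (by norm_num) (1 - 1 / N) t).div_const 6).sub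
    ((hasDeriv_shift 3 (by norm_num) 1 t).div_const 3)).add
    ((hasDeriv_shift 3 (by norm_num) (1 + 1 / N) t).div_const 6)).const_mul (N ^ 2)
  have h' : HasDerivAt (f2 N) _ t := h
  refine h'.congr_deriv ?_
  unfold f1
  push_cast
  ring

theorem cont0 (N : ℝ) : Continuous (f0 N) := by
  unfold f0; fun_prop

theorem cont1 (N : ℝ) : Continuous (f1 N) := by
  unfold f1; fun_prop

theorem tri_eq (n : ℕ) (hn : 2 ≤ n) (t : ℝ) : tri n t = f0 n t := by
  have hN : (2 : ℝ) ≤ n := by exact_mod_cast hn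
  have hN0 : (0 : ℝ) < n := by linarith
  have hi : (n : ℝ) * (1 / n) = 1 := by field_simp
  set e : ℝ := 1 / n with he
  have he0 : 0 < e := by positivity
  unfold tri f0
  rw [← he]
  have key : (n : ℝ) ^ 2 * e = n := by
    calc (n : ℝ) ^ 2 * e = n * (n * e) := by ring
      _ = n := by rw [hi]; ring
  rcases le_total t (1 - e) with h | h
  · have a1 : |t - 1| = 1 - t := by rw [abs_of_nonpos (by linarith)]; ring
    rw [a1, max_eq_right (a := t - (1 - e)) (by linarith), max_eq_right (a := t - 1) (by linarith),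
      max_eq_right (a := t - (1 + e)) (by linarith), max_eq_right]
    · ring
    · nlinarith
  rcases le_total t 1 with h' | h'
  · have a1 : |t - 1| = 1 - t := by rw [abs_of_nonpos (by linarith)]; ring
    rw [a1, max_eq_left (a := t - (1 - e)) (by linarith), max_eq_right (a := t - 1) (by linarith),
      max_eq_right (a := t - (1 + e)) (by linarith), max_eq_left]
    · linear_combination (-1 : ℝ) * key
    · nlinarith
  rcases le_total t (1 + e) with h'' | h''
  · have a1 : |t - 1| = t - 1 := by rw [abs_of_nonneg (by linarith)]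
    rw [a1, max_eq_left (a := t - (1 - e)) (by linarith), max_eq_left (a := t - 1) (by linarith),
      max_eq_right (a := t - (1 + e)) (by linarith), max_eq_left]
    · linear_combination (-1 : ℝ) * key
    · nlinarith
  · have a1 : |t - 1| = t - 1 := by rw [abs_of_nonneg (by linarith)]
    rw [a1, max_eq_left (a := t - (1 - e)) (by linarith), max_eq_left (a := t - 1) (by linarith),
      max_eq_left (a := t - (1 + e)) (by linarith), max_eq_right]
    · ring
    · nlinarith

theorem om1_eq (n : ℕ) (hn : 2 ≤ n) (t : ℝ) : om1 (tri n) t = f1 n t := by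
  have hN : (2 : ℝ) ≤ n := by exact_mod_cast hn
  have he : (1 : ℝ) / n ≤ 1 := by rw [div_le_one (by linarith)]; linarith
  have he0 : (0 : ℝ) < 1 / n := by positivity
  have hf : tri n = f0 n := funext (tri_eq n hn)
  unfold om1
  rw [hf, intervalIntegral.integral_eq_sub_of_hasDerivAt (fun x _ => d1 n x)
    ((cont0 _).intervalIntegrable _ _)]
  have : f1 n 0 = 0 := by
    unfold f1
    rw [max_eq_right (a := (0 : ℝ) - (1 - 1 / n)) (by linarith),
      max_eq_right (a := (0 : ℝ) - 1) (by linarith),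
      max_eq_right (a := (0 : ℝ) - (1 + 1 / n)) (by linarith)]
    ring
  rw [this, sub_zero]

theorem om_eq (n : ℕ) (hn : 2 ≤ n) (t : ℝ) : om (tri n) t = f2 n t := by
  have hN : (2 : ℝ) ≤ n := by exact_mod_cast hn
  have he : (1 : ℝ) / n ≤ 1 := by rw [div_le_one (by linarith)]; linarith
  have he0 : (0 : ℝ) < 1 / n := by positivity
  have hf : om1 (tri n) = f1 n := funext (om1_eq n hn)
  unfold om
  rw [hf, intervalIntegral.integral_eq_sub_of_hasDerivAt (fun x _ => d2 n x)
    ((cont1 _).intervalIntegrable _ _)]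
  have : f2 n 0 = 0 := by
    unfold f2
    rw [max_eq_right (a := (0 : ℝ) - (1 - 1 / n)) (by linarith),
      max_eq_right (a := (0 : ℝ) - 1) (by linarith),
      max_eq_right (a := (0 : ℝ) - (1 + 1 / n)) (by linarith)]
    ring
  rw [this, sub_zero]

theorem zero_out (n : ℕ) (hn : 2 ≤ n) (t : ℝ) (ht : 1 / (n : ℝ) ≤ |t - 1|) : tri n t = 0 := by
  have hN : (2 : ℝ) ≤ n := by exact_mod_cast hn
  have h1 : 1 ≤ (n : ℝ) * |t - 1| := by
    rw [div_le_iff₀ (by linarith)] at ht
    linarith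
  unfold tri
  rw [max_eq_right (by linarith), mul_zero]

theorem lcx (n : ℕ) (hn : 2 ≤ n) (t : ℝ) :
    tri n t * om (tri n) t ≤ 2 / 3 * om1 (tri n) t ^ 2 := by
  have hN : (2 : ℝ) ≤ n := by exact_mod_cast hn
  have hN0 : (0 : ℝ) < n := by linarith
  have hi : (n : ℝ) * (1 / n) = 1 := by field_simp
  rcases le_or_gt (1 / (n : ℝ)) |t - 1| with h0 | h0
  · rw [zero_out n hn t h0, zero_mul]; positivity
  rw [tri_eq n hn, om_eq n hn, om1_eq n hn]
  unfold f0 f1 f2
  set e : ℝ := 1 / n with he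
  have he0 : 0 < e := by positivity
  rw [abs_lt] at h0
  rcases le_total t 1 with h' | h'
  · rw [max_eq_left (a := t - (1 - e)) (by linarith), max_eq_right (a := t - 1) (by linarith),
      max_eq_right (a := t - (1 + e)) (by linarith)]
    apply le_of_eq
    ring
  · rw [max_eq_left (a := t - (1 - e)) (by linarith), max_eq_left (a := t - 1) (by linarith),
      max_eq_right (a := t - (1 + e)) (by linarith)]
    obtain ⟨v, rfl⟩ : ∃ v, t = 1 + v := ⟨t - 1, by ring⟩
    have hv : 0 ≤ v := by linarith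
    have e1 : 1 + v - (1 - e) = v + e := by ring
    have e2 : 1 + v - 1 = v := by ring
    rw [e1, e2]
    have key : 2 / 3 * ((n : ℝ) ^ 2 * ((v + e) ^ 2 / 2 - v ^ 2 + 0 ^ 2 / 2)) ^ 2
        - (n : ℝ) ^ 2 * (v + e - 2 * v + 0) * (n ^ 2 * ((v + e) ^ 3 / 6 - v ^ 3 / 3 + 0 ^ 3 / 6))
        = (n : ℝ) ^ 4 * (e ^ 3 * v / 3 + e ^ 2 * v ^ 2 / 3) := by
      ring
    have : 0 ≤ (n : ℝ) ^ 4 * (e ^ 3 * v / 3 + e ^ 2 * v ^ 2 / 3) := by positivity
    linarith

theorem bump (n : ℕ) (hn : 2 ≤ n) : Bump (tri n) := by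
  have hN : (2 : ℝ) ≤ n := by exact_mod_cast hn
  have he : (1 : ℝ) / n ≤ 1 / 2 := one_div_le_one_div_of_le (by norm_num) hN
  refine ⟨fun t => ?_, ⟨⟨(n : ℝ) ^ 2, by positivity⟩, ?_⟩, fun t ht => ?_, fun t ht => ?_⟩
  · unfold tri; exact mul_nonneg (by linarith) (le_max_right _ _)
  · refine LipschitzWith.of_dist_le_mul fun x y => ?_
    rw [Real.dist_eq, Real.dist_eq]
    change |tri n x - tri n y| ≤ (n : ℝ) ^ 2 * |x - y|
    unfold tri
    rw [← mul_sub, abs_mul, abs_of_nonneg (by linarith : (0 : ℝ) ≤ n), pow_two, mul_assoc]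
    refine mul_le_mul_of_nonneg_left ?_ (by linarith)
    refine (abs_max_sub_max_le_abs _ _ _).trans ?_
    have e1 : (1 - (n : ℝ) * |x - 1|) - (1 - n * |y - 1|) = -(n * (|x - 1| - |y - 1|)) := by ring
    rw [e1, abs_neg, abs_mul, abs_of_nonneg (by linarith : (0 : ℝ) ≤ n)]
    refine mul_le_mul_of_nonneg_left ?_ (by linarith)
    refine (abs_abs_sub_abs_le_abs_sub _ _).trans ?_
    apply le_of_eq
    congr 1
    ring
  · refine zero_out n hn t ?_
    rw [abs_of_nonpos (by linarith)]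
    linarith
  · refine zero_out n hn t ?_
    rw [abs_of_nonneg (by linarith)]
    linarith

theorem om1_two (n : ℕ) (hn : 2 ≤ n) : om1 (tri n) 2 = 1 := by
  have hN : (2 : ℝ) ≤ n := by exact_mod_cast hn
  have he : (1 : ℝ) / n ≤ 1 / 2 := one_div_le_one_div_of_le (by norm_num) hN
  have he0 : (0 : ℝ) < 1 / n := by positivity
  rw [om1_eq n hn]
  unfold f1
  rw [max_eq_left (a := (2 : ℝ) - (1 - 1 / n)) (by linarith),
      max_eq_left (a := (2 : ℝ) - 1) (by linarith),
      max_eq_left (a := (2 : ℝ) - (1 + 1 / n)) (by linarith)]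
  field_simp
  ring

theorem main : S_TRI := fun n hn =>
  ⟨⟨bump n hn, by rw [om1_two n hn]; exact one_pos, lcx n hn⟩, om1_two n hn, zero_out n hn⟩

end Pool.Agent.W919.BQ.Tri
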